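import Pool.Agent.R544.EM.Low

/-!
The multiples of an irrational number (`√2` for instance) in which a given word of digits stands only
finitely often: among the `m < b ^ n` there are at most `(b + 1) a_w(n)`, where `a_w(n)` is the number
of the words of `n` digits in which `w` does not occur. This is sharp up to the factor `b + 1`.
-/

set_option autoImplicit false

namespace Pool.Agent.Results.MP_175f55_nt.ExceptionalMultiples

/-- the `j`-th digit of `y` in base `b` (`j ≥ 1`) -/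
noncomputable def digit (b : ℕ) (y : ℝ) (j : ℕ) : ℤ := ⌊y * (b : ℝ) ^ j⌋ % b

/-- the word `w 0 … w (k - 1)` stands in the base `b` expansion of `y` right after the `i`-th digit -/
def Stands (b k : ℕ) (w : ℕ → ℕ) (y : ℝ) (i : ℕ) : Prop :=
  ∀ s < k, digit b y (i + s + 1) = (w s : ℤ)

/-- the number of the `m < M` such that the word `w 0 … w (k - 1)` stands only finitely often in the
base `b` expansion of `x + m α` -/
noncomputable def exc (b k : ℕ) (w : ℕ → ℕ) (α x : ℝ) (M : ℕ) : ℕ :=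
  {m : ℕ | m < M ∧ {i : ℕ | Stands b k w (x + m * α) i}.Finite}.ncard

/-- the number of the words of `n` digits in base `b` in which the word `w 0 … w (k - 1)` does not
occur; a word of `n` digits is here an integer `u < b ^ n`, the digit of `u` with `e` digits on the
right of it being `u / b ^ e % b` -/
noncomputable def a (b k : ℕ) (w : ℕ → ℕ) (n : ℕ) : ℕ :=
  {u : ℕ | u < b ^ n ∧ ∀ e, e + k ≤ n → ∃ s < k, u / b ^ (e + (k - 1 - s)) % b ≠ w s}.ncard

/-- the number of the `m < M` such that at least one word of `k` decimal digits stands only finitely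
often in the decimal expansion of `x + m √2` -/
noncomputable def excTwo (k : ℕ) (x : ℝ) (M : ℕ) : ℕ :=
  {m : ℕ | m < M ∧ ∃ w : ℕ → ℕ, (∀ s < k, w s < 10) ∧
    {i : ℕ | Stands 10 k w (x + m * Real.sqrt 2) i}.Finite}.ncard

lemma exc_le (b : ℕ) (hb : 2 ≤ b) (k : ℕ) (w : ℕ → ℕ) (α : ℝ) (hα : Irrational α) (x : ℝ) (n : ℕ) :
    exc b k w α x (b ^ n) ≤ (b + 1) * a b k w n :=
  Pool.Agent.R544.EM.upper b hb k w α hα x n

lemma a_pow (b : ℕ) (hb : 2 ≤ b) (k : ℕ) (w : ℕ → ℕ) (hw : ∀ j < k, w j < b) (l : ℕ) :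
    a b k w (k * l) ≤ (b ^ k - 1) ^ l :=
  Pool.Agent.R544.EM.av_pow b hb k w hw l

lemma excTwo_le (k : ℕ) (x : ℝ) (l : ℕ) :
    excTwo k x (10 ^ (k * l)) ≤ 11 * 10 ^ k * (10 ^ k - 1) ^ l := by
  classical
  set ext : (Fin k → Fin 10) → ℕ → ℕ := fun w s => if h : s < k then (w ⟨s, h⟩ : ℕ) else 0 with hext
  have hext_lt : ∀ w, ∀ s < k, ext w s < 10 := by
    intro w s hs
    simp only [hext, hs, dif_pos]
    exact (w ⟨s, hs⟩).isLt
  have hsub : {m : ℕ | m < 10 ^ (k * l) ∧ ∃ w : ℕ → ℕ, (∀ s < k, w s < 10) ∧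
      {i : ℕ | Stands 10 k w (x + m * Real.sqrt 2) i}.Finite} ⊆
      ⋃ w : Fin k → Fin 10, {m : ℕ | m < 10 ^ (k * l) ∧
        {i : ℕ | Stands 10 k (ext w) (x + m * Real.sqrt 2) i}.Finite} := by
    rintro m ⟨hm, w, hw, hf⟩
    refine Set.mem_iUnion.2 ⟨fun s => ⟨w s, hw s s.isLt⟩, hm, ?_⟩
    have : ∀ i, Stands 10 k (ext fun s => ⟨w s, hw s s.isLt⟩) (x + m * Real.sqrt 2) i ↔
        Stands 10 k w (x + m * Real.sqrt 2) i := by
      intro i
      unfold Stands
      refine forall₂_congr fun s hs => ?_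
      simp [hext, hs]
    simp only [this]
    exact hf
  have hfin : ∀ w : ℕ → ℕ, {m : ℕ | m < 10 ^ (k * l) ∧
        {i : ℕ | Stands 10 k w (x + m * Real.sqrt 2) i}.Finite}.Finite := fun w =>
    (Set.finite_lt_nat (10 ^ (k * l))).subset fun m hm => hm.1
  calc excTwo k x (10 ^ (k * l))
      ≤ (⋃ w : Fin k → Fin 10, {m : ℕ | m < 10 ^ (k * l) ∧
        {i : ℕ | Stands 10 k (ext w) (x + m * Real.sqrt 2) i}.Finite}).ncard :=
        Set.ncard_le_ncard hsub (Set.finite_iUnion fun w => hfin _)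
    _ ≤ ∑ w : Fin k → Fin 10, exc 10 k (ext w) (Real.sqrt 2) x (10 ^ (k * l)) := by
        have h := Set.ncard_iUnion_le_of_fintype (fun w : Fin k → Fin 10 => {m : ℕ | m < 10 ^ (k * l) ∧
          {i : ℕ | Stands 10 k (ext w) (x + m * Real.sqrt 2) i}.Finite})
        exact h
    _ ≤ ∑ _w : Fin k → Fin 10, 11 * (10 ^ k - 1) ^ l := by
        refine Finset.sum_le_sum fun w _ => ?_
        refine (exc_le 10 (by norm_num) k (ext w) (Real.sqrt 2) irrational_sqrt_two x (k * l)).trans ?_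
        exact Nat.mul_le_mul_left _ (a_pow 10 (by norm_num) k (ext w) (hext_lt w) l)
    _ = 11 * 10 ^ k * (10 ^ k - 1) ^ l := by
        rw [Finset.sum_const, Finset.card_univ, Fintype.card_fun, Fintype.card_fin, Fintype.card_fin,
          smul_eq_mul]
        ring

/-- (1) Let `b ≥ 2`, let `w` be a word of `k` digits, `n ≥ 0`. For all irrational `α` and all real
`x`, the word `w` stands only finitely often in `x + m α` for at most `(b + 1) a_w(n)` of the
`m < b ^ n`.

(2) This is sharp up to the factor `b + 1`: the Liouville number `∑ b ^ (- j!)` is irrational and for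
all words `w` whose first and last digits are not `0`, and all `n`, the word `w` stands only finitely
often in at least `a_w(n)` of its multiples by `m < b ^ n`.

(3) For all `x`, for all but at most `110 * 9 ^ l` of the `m < 10 ^ l` each of the ten digits stands
infinitely often in the decimal expansion of `x + m √2`, and for all but at most
`11 * 10 ^ k * (10 ^ k - 1) ^ l` of the `m < 10 ^ (k l)` all words of `k` digits do. -/
theorem result :
    (∀ b : ℕ, 2 ≤ b → ∀ (k : ℕ) (w : ℕ → ℕ) (n : ℕ) (α : ℝ), Irrational α → ∀ x : ℝ,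
      exc b k w α x (b ^ n) ≤ (b + 1) * a b k w n) ∧
    (∀ b : ℕ, 2 ≤ b → Irrational (liouvilleNumber b) ∧
      ∀ k : ℕ, 1 ≤ k → ∀ w : ℕ → ℕ, w 0 ≠ 0 → w (k - 1) ≠ 0 → ∀ n : ℕ,
        a b k w n ≤ exc b k w (liouvilleNumber b) 0 (b ^ n)) ∧
    (∀ (x : ℝ) (l : ℕ), excTwo 1 x (10 ^ l) ≤ 110 * 9 ^ l ∧
      ∀ k : ℕ, excTwo k x (10 ^ (k * l)) ≤ 11 * 10 ^ k * (10 ^ k - 1) ^ l) := by
  refine ⟨fun b hb k w n α hα x => exc_le b hb k w α hα x n, fun b hb =>
    ⟨Pool.Agent.R544.EM.irrational_liou b hb, fun k hk w h0 h1 n =>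
      Pool.Agent.R544.EM.lower b hb k hk w h0 h1 n⟩, fun x l => ⟨?_, fun k => excTwo_le k x l⟩⟩
  have h := excTwo_le 1 x l
  rw [one_mul] at h
  simpa using h

end Pool.Agent.Results.MP_175f55_nt.ExceptionalMultiples
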