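import Pool.Agent.R544.EM.Few

/-!
The number of the words of `k` digits which stand infinitely often in `x + m α` (for instance in
`m √2`), for most `m < M`.
-/

set_option autoImplicit false

namespace Pool.Agent.Results.MP_175f55_nt.ComplexityOfMultiples

/-- the `k` digits of `y` in base `b` after the `i`-th digit after the point, read as a number in
`[0, b ^ k)` -/
noncomputable def word (b k : ℕ) (y : ℝ) (i : ℕ) : ℤ := ⌊y * (b : ℝ) ^ (i + k)⌋ % (b : ℤ) ^ k

/-- the number of the words of `k` digits which stand infinitely often in the base `b` expansion of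
`y` -/
noncomputable def complexity (b k : ℕ) (y : ℝ) : ℕ := {v : ℤ | {i : ℕ | word b k y i = v}.Infinite}.ncard

/-- (1) Let `b ≥ 2`, `α` irrational. For every `n` there are arbitrarily large places `q` such that
for all real `x` every word of `n` digits is the block of the digits at the places `q + 1, …, q + n`
of `x + m α` for at most `b + 1` of the `m < b ^ n`.

(2) For all real `x`, `k ≥ 1`, `1 ≤ P ≤ b ^ k` and `M ≥ 1`, for all but at most
`(b + 1) binom(b ^ k, P) P M ^ (log P / (k log b))` of the `m < M` more than `P` words of `k` digits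
stand infinitely often in `x + m α`.

(3) For `1 ≤ P < 10`, for all but at most `11 binom(10, P) P M ^ (log P / log 10)` of the `m < M` more
than `P` of the ten digits stand infinitely often in the decimal expansion of `x + m √2`; for all but
at most `990 M ^ 0.302` at least three of them do.

(4) For every `k ≥ 1` there is a `C` such that for all `0 ≤ s ≤ 1`, all real `x` and `M ≥ 1`, for all
but at most `C M ^ s` of the `m < M` more than `10 ^ (s k)` words of `k` decimal digits stand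
infinitely often in `x + m √2`.

(5) The exponents are best possible: for `1 ≤ c ≤ b`, for at least `c ^ n` of the `m < b ^ n` at most
`c ^ k` words of `k` digits stand infinitely often in `m` times the (irrational) Liouville number
`∑ b ^ (- j!)`. -/
theorem result :
    (∀ b : ℕ, 2 ≤ b → ∀ α : ℝ, Irrational α → ∀ n q0 : ℕ, ∃ q, q0 ≤ q ∧ ∀ (x : ℝ) (v : ℤ),
      {m : ℕ | m < b ^ n ∧ word b n (x + m * α) q = v}.ncard ≤ b + 1) ∧
    (∀ b : ℕ, 2 ≤ b → ∀ α : ℝ, Irrational α → ∀ x : ℝ, ∀ k P : ℕ, 1 ≤ k → 1 ≤ P → P ≤ b ^ k →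
      ∀ M : ℕ, 1 ≤ M → (({m : ℕ | m < M ∧ complexity b k (x + m * α) ≤ P}.ncard : ℕ) : ℝ) ≤
        (b + 1) * (b ^ k).choose P * P * (M : ℝ) ^ (Real.log P / (k * Real.log b))) ∧
    (∀ x : ℝ, ∀ M : ℕ, 1 ≤ M →
      (∀ P : ℕ, 1 ≤ P → P < 10 →
        (({m : ℕ | m < M ∧ complexity 10 1 (x + m * √2) ≤ P}.ncard : ℕ) : ℝ) ≤
          11 * Nat.choose 10 P * P * (M : ℝ) ^ (Real.log P / Real.log 10)) ∧
      (({m : ℕ | m < M ∧ complexity 10 1 (x + m * √2) < 3}.ncard : ℕ) : ℝ) ≤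
          990 * (M : ℝ) ^ (0.302 : ℝ)) ∧
    (∀ k : ℕ, 1 ≤ k → ∃ C : ℝ, ∀ s : ℝ, 0 ≤ s → s ≤ 1 → ∀ x : ℝ, ∀ M : ℕ, 1 ≤ M →
      (({m : ℕ | m < M ∧ (complexity 10 k (x + m * √2) : ℝ) ≤ (10 : ℝ) ^ (s * k)}.ncard : ℕ) : ℝ) ≤
        C * (M : ℝ) ^ s) ∧
    (∀ b : ℕ, 2 ≤ b → Irrational (liouvilleNumber b) ∧ ∀ c : ℕ, 1 ≤ c → c ≤ b → ∀ k n : ℕ,
      c ^ n ≤ {m : ℕ | m < b ^ n ∧ complexity b k (m * liouvilleNumber b) ≤ c ^ k}.ncard) := by
  have h2 : ∀ b : ℕ, 2 ≤ b → ∀ α : ℝ, Irrational α → ∀ x : ℝ, ∀ k P : ℕ, 1 ≤ k → 1 ≤ P → P ≤ b ^ k →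
      ∀ M : ℕ, 1 ≤ M → (({m : ℕ | m < M ∧ complexity b k (x + m * α) ≤ P}.ncard : ℕ) : ℝ) ≤
        (b + 1) * (b ^ k).choose P * P * (M : ℝ) ^ (Real.log P / (k * Real.log b)) :=
    fun b hb α hα x k P hk hP0 hP M hM =>
      Pool.Agent.R544.EM.few_words_pow b hb α hα x k P hk hP0 hP M hM
  have hdig : ∀ x : ℝ, ∀ M : ℕ, 1 ≤ M → ∀ P : ℕ, 1 ≤ P → P < 10 →
        (({m : ℕ | m < M ∧ complexity 10 1 (x + m * √2) ≤ P}.ncard : ℕ) : ℝ) ≤
          11 * Nat.choose 10 P * P * (M : ℝ) ^ (Real.log P / Real.log 10) := by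
    intro x M hM P hP0 hP
    have h := h2 10 (by norm_num) (√2) irrational_sqrt_two x 1 P le_rfl hP0 (by omega) M hM
    refine h.trans (le_of_eq ?_)
    rw [pow_one, Nat.cast_one, one_mul]
    push_cast
    norm_num
  refine ⟨fun b hb α hα n q0 => Pool.Agent.R544.EM.blocks b hb α hα n q0, h2,
    fun x M hM => ⟨hdig x M hM, ?_⟩, fun k hk => ?_, fun b hb =>
      ⟨Pool.Agent.R544.EM.irrational_liou b hb, fun c hc1 hc k n =>
        Pool.Agent.R544.EM.few_lower b hb c hc1 hc k n⟩⟩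
  · have h := hdig x M hM 2 (by norm_num) (by norm_num)
    have hMR : (1 : ℝ) ≤ M := by exact_mod_cast hM
    have hset : {m : ℕ | m < M ∧ complexity 10 1 (x + m * √2) < 3} =
        {m : ℕ | m < M ∧ complexity 10 1 (x + m * √2) ≤ 2} := by
      ext m
      refine and_congr_right fun _ => ?_
      omega
    rw [hset]
    refine h.trans ?_
    have e : (11 : ℝ) * (Nat.choose 10 2 : ℕ) * ((2 : ℕ) : ℝ) = 990 := by
      rw [show Nat.choose 10 2 = 45 by decide]
      norm_num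
    rw [e]
    refine mul_le_mul_of_nonneg_left (Real.rpow_le_rpow_of_exponent_le hMR ?_) (by norm_num)
    have h10 : 0 < Real.log 10 := Real.log_pos (by norm_num)
    rw [div_le_iff₀ h10]
    -- `2 ^ 53 < 10 ^ 16`
    have h3 : Real.log ((2 : ℝ) ^ 53) < Real.log ((10 : ℝ) ^ 16) :=
      Real.log_lt_log (by positivity) (by norm_num)
    rw [Real.log_pow, Real.log_pow] at h3
    push_cast at h3 ⊢
    linarith
  · refine ⟨11 * 2 ^ 10 ^ k * 10 ^ k, fun s hs0 hs1 x M hM => ?_⟩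
    have hMR : (1 : ℝ) ≤ M := by exact_mod_cast hM
    have hkR : (1 : ℝ) ≤ k := by exact_mod_cast hk
    have h10 : 0 < Real.log 10 := Real.log_pos (by norm_num)
    set P : ℕ := ⌊(10 : ℝ) ^ (s * k)⌋₊ with hP
    have hP1 : 1 ≤ P := by
      rw [hP, Nat.one_le_floor_iff]
      exact Real.one_le_rpow (by norm_num) (by positivity)
    have hPle : (P : ℝ) ≤ (10 : ℝ) ^ (s * k) := Nat.floor_le (by positivity)
    have hPk : P ≤ 10 ^ k := by
      have h3 : (10 : ℝ) ^ (s * k) ≤ (10 : ℝ) ^ ((k : ℕ) : ℝ) :=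
        Real.rpow_le_rpow_of_exponent_le (by norm_num) (by nlinarith)
      rw [Real.rpow_natCast] at h3
      exact_mod_cast hPle.trans h3
    have h := h2 10 (by norm_num) (√2) irrational_sqrt_two x k P hk hP1 hPk M hM
    have hset : {m : ℕ | m < M ∧ (complexity 10 k (x + m * √2) : ℝ) ≤ (10 : ℝ) ^ (s * k)} =
        {m : ℕ | m < M ∧ complexity 10 k (x + m * √2) ≤ P} := by
      ext m
      refine and_congr_right fun _ => ?_
      rw [hP, Nat.le_floor_iff (by positivity)]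
    rw [hset]
    refine h.trans ?_
    have hexp : Real.log P / (k * Real.log ((10 : ℕ) : ℝ)) ≤ s := by
      rw [div_le_iff₀ (by push_cast; positivity)]
      have h4 : Real.log P ≤ Real.log ((10 : ℝ) ^ (s * k)) :=
        Real.log_le_log (by positivity) hPle
      rw [Real.log_rpow (by norm_num)] at h4
      push_cast
      linarith
    have hch : (((10 ^ k).choose P : ℕ) : ℝ) ≤ 2 ^ 10 ^ k := by
      exact_mod_cast Nat.choose_le_two_pow _ _
    have hP' : (P : ℝ) ≤ 10 ^ k := by exact_mod_cast hPk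
    have hM2 : (M : ℝ) ^ (Real.log P / (k * Real.log ((10 : ℕ) : ℝ))) ≤ (M : ℝ) ^ s :=
      Real.rpow_le_rpow_of_exponent_le hMR hexp
    have h11 : (((10 : ℕ) : ℝ) + 1) = 11 := by norm_num
    rw [h11]
    calc (11 : ℝ) * (((10 ^ k).choose P : ℕ) : ℝ) * P *
          (M : ℝ) ^ (Real.log P / (k * Real.log ((10 : ℕ) : ℝ)))
        ≤ 11 * 2 ^ 10 ^ k * 10 ^ k * (M : ℝ) ^ s := by gcongr
      _ = 11 * 2 ^ 10 ^ k * 10 ^ k * (M : ℝ) ^ s := rfl

end Pool.Agent.Results.MP_175f55_nt.ComplexityOfMultiples
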