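import Pool.Agent.R471.MahlerLow
/-!
Explicit, and for general irrational numbers optimal, multipliers: the digit `d` stands infinitely often in the
decimal expansion of at least one of `√2, 2√2, …, M(d)√2`.
-/
set_option autoImplicit false

namespace Pool.Agent.Results.MP_175f55_nt.SharpMultiplier
open Pool.Agent.R471

/-- the `n`-th decimal digit of `y` after the point (`n ≥ 1`) -/
noncomputable def digit (y : ℝ) (n : ℕ) : ℤ := ⌊y * 10 ^ n⌋ % 10

/-- the bounds `72, 32, 35, 24, 32, 32, 24, 35, 32, 72` for the digits `0, 1, …, 9` -/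
def M (d : Fin 10) : ℕ := ![72, 32, 35, 24, 32, 32, 24, 35, 32, 72] d

/-- For every digit `d` at least one of the numbers `√2, 2√2, …, M(d)√2` contains `d` infinitely often in its
decimal expansion; and `M(d)` is the least `K` such that for every positive irrational `α` at least one of
`α, 2α, …, Kα` contains `d` infinitely often. -/
theorem result (d : Fin 10) :
    (∃ m : ℕ, 1 ≤ m ∧ m ≤ M d ∧ {n : ℕ | digit (m * Real.sqrt 2) n = ((d : ℕ) : ℤ)}.Infinite) ∧
    IsLeast {K : ℕ | ∀ α : ℝ, 0 < α → Irrational α →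
      ∃ m : ℕ, 1 ≤ m ∧ m ≤ K ∧ {n : ℕ | digit (m * α) n = ((d : ℕ) : ℤ)}.Infinite} (M d) := by
  have hup : ∀ d : Fin 10, ∀ α : ℝ, Irrational α →
      ∃ m : ℕ, 1 ≤ m ∧ m ≤ M d ∧ {n : ℕ | digit (m * α) n = ((d : ℕ) : ℤ)}.Infinite := by
    intro d α hα
    fin_cases d
    exacts [MC.d0 α hα, MC.d1 α hα, MC.d2 α hα, MC.d3 α hα, MC.d4 α hα, MC.d5 α hα, MC.d6 α hα,
      MC.d7 α hα, MC.d8 α hα, MC.d9 α hα]
  have hlow : ∀ d : Fin 10, ∃ α : ℝ, 0 < α ∧ Irrational α ∧ ∀ m : ℕ, 1 ≤ m → m < M d → ∀ n, 2 ≤ n →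
      digit (m * α) n ≠ ((d : ℕ) : ℤ) := by
    have hpos1 : ∀ w : ℕ, 0 < w → (0 : ℝ) < w * liouvilleNumber 10 := by
      intro w hw
      have := MC.pos_liou
      have hw' : (0 : ℝ) < w := by exact_mod_cast hw
      positivity
    have hpos2 : ∀ w : ℕ, w < 10000 → (0 : ℝ) < 10000 - w * liouvilleNumber 10 := by
      intro w hw
      have h1 := MC.liou_lt
      have h2 := MC.pos_liou
      have hw' : (w : ℝ) < 10000 := by exact_mod_cast hw
      have hw0 : (0 : ℝ) ≤ w := Nat.cast_nonneg w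
      nlinarith
    intro d
    fin_cases d
    · exact ⟨_, hpos2 125 (by norm_num), MC.low2 125 72 9 0 (by norm_num) (by norm_num) (by norm_num)
        (by decide +kernel) (by norm_num)⟩
    · exact ⟨_, hpos2 25 (by norm_num), MC.low2 25 32 8 1 (by norm_num) (by norm_num) (by norm_num)
        (by decide +kernel) (by norm_num)⟩
    · exact ⟨_, hpos2 2 (by norm_num), MC.low2 2 35 7 2 (by norm_num) (by norm_num) (by norm_num)
        (by decide +kernel) (by norm_num)⟩
    · exact ⟨_, hpos2 25 (by norm_num), MC.low2 25 24 6 3 (by norm_num) (by norm_num) (by norm_num)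
        (by decide +kernel) (by norm_num)⟩
    · exact ⟨_, hpos1 125 (by norm_num), MC.low1 125 32 4 (by norm_num) (by norm_num) (by norm_num)
        (by decide +kernel)⟩
    · exact ⟨_, hpos2 125 (by norm_num), MC.low2 125 32 4 5 (by norm_num) (by norm_num) (by norm_num)
        (by decide +kernel) (by norm_num)⟩
    · exact ⟨_, hpos1 25 (by norm_num), MC.low1 25 24 6 (by norm_num) (by norm_num) (by norm_num)
        (by decide +kernel)⟩
    · exact ⟨_, hpos1 2 (by norm_num), MC.low1 2 35 7 (by norm_num) (by norm_num) (by norm_num)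
        (by decide +kernel)⟩
    · exact ⟨_, hpos1 25 (by norm_num), MC.low1 25 32 8 (by norm_num) (by norm_num) (by norm_num)
        (by decide +kernel)⟩
    · exact ⟨_, hpos1 125 (by norm_num), MC.low1 125 72 9 (by norm_num) (by norm_num) (by norm_num)
        (by decide +kernel)⟩
  refine ⟨hup d _ irrational_sqrt_two, fun α _ hα => hup d α hα, fun K hK => ?_⟩
  by_contra hlt
  push Not at hlt
  obtain ⟨α, h0, hα, hα2⟩ := hlow d
  obtain ⟨m, hm1, hm2, hm3⟩ := hK α h0 hα
  apply hm3
  refine (Set.finite_lt_nat 2).subset fun n hn => ?_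
  by_contra h2
  exact hα2 m hm1 (by omega) n (not_lt.1 h2) hn

end Pool.Agent.Results.MP_175f55_nt.SharpMultiplier
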