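import Mathlib
import Pool.Agent.R471.MahlerShift
import Pool.Agent.R471.MahlerWordLow

/-!
# All words of `k` digits at one place of the numbers `x + m √2`

Let `K = 10 ^ (k + 1) - 9`.  For every `ε > 0` and all large `n₀` there is a place `n` between `n₀` and `(1 + ε) n₀` such
that for all real `x` each word of `k` decimal digits stands at the place `n` of one of `x + √2, …, x + K √2`.  The same in
every base for all irrational algebraic numbers; for all irrational numbers there are infinitely many such places.  Hence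
each word stands infinitely often in one of any `K` consecutive multiples, also along arithmetic progressions.
-/

set_option autoImplicit false

open Filter

namespace Pool.Agent.Results.MP_175f55_nt.ShiftedMultiples

/-- the `k` digits of `y` in base `b` which end at the place `n` after the point, read as a number -/
noncomputable def word (b k : ℕ) (y : ℝ) (n : ℕ) : ℤ := ⌊y * (b : ℝ) ^ n⌋ % ((b ^ k : ℕ) : ℤ)

/-- for every real `x`, every word `w` of `k` digits (`w < b ^ k`) stands at the place `n` of one of the numbers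
`x + m α`, `1 ≤ m ≤ b ^ (k + 1) - b + 1` -/
def Complete (b k : ℕ) (α : ℝ) (n : ℕ) : Prop :=
  ∀ x : ℝ, ∀ w : ℕ, w < b ^ k → ∃ m : ℕ, 1 ≤ m ∧ m ≤ b ^ (k + 1) - b + 1 ∧ word b k (x + m * α) n = w

/-- (1) For every `k`, every `ε > 0` and all large `n₀` there is a place `n`, `n₀ ≤ n ≤ (1 + ε) n₀`, at which for every
real `x` all words of `k` decimal digits stand in the numbers `x + m √2`, `1 ≤ m ≤ 10 ^ (k + 1) - 9`.
(2) The same in every base `b ≥ 2` for every irrational algebraic number, with `1 ≤ m ≤ b ^ (k + 1) - b + 1`.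
(3) For every irrational number there are infinitely many such places.
(4) For every irrational `α`, real `x`, word `w` of `k` digits, `d ≥ 1` and integer `r` the word `w` stands infinitely
often in `x + (r + d i) α` for some `i` with `1 ≤ i ≤ b ^ (k + 1) - b + 1`.
(5) If `k ≥ 1`, `1 ≤ c < b` and `c` divides a power of `b`, there is an irrational `α > 0` such that the word of `k` digits
`b - 1` stands only finitely often in `m α` for all `m` with `1 ≤ m < c (b ^ k - 1)`. -/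
theorem result :
    (∀ k : ℕ, ∀ ε : ℝ, 0 < ε → ∀ᶠ n₀ : ℕ in atTop, ∃ n : ℕ, n₀ ≤ n ∧ (n : ℝ) ≤ (1 + ε) * n₀ ∧
      Complete 10 k (Real.sqrt 2) n) ∧
    (∀ b k : ℕ, 2 ≤ b → ∀ α : ℝ, IsAlgebraic ℚ α → Irrational α → ∀ ε : ℝ, 0 < ε →
      ∀ᶠ n₀ : ℕ in atTop, ∃ n : ℕ, n₀ ≤ n ∧ (n : ℝ) ≤ (1 + ε) * n₀ ∧ Complete b k α n) ∧
    (∀ b k : ℕ, 2 ≤ b → ∀ α : ℝ, Irrational α → {n : ℕ | Complete b k α n}.Infinite) ∧
    (∀ b k w : ℕ, 2 ≤ b → w < b ^ k → ∀ α : ℝ, Irrational α → ∀ (x : ℝ) (d : ℕ) (r : ℤ), 1 ≤ d →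
      ∃ i : ℕ, 1 ≤ i ∧ i ≤ b ^ (k + 1) - b + 1 ∧
        {n : ℕ | word b k (x + ((r + d * i : ℤ) : ℝ) * α) n = w}.Infinite) ∧
    (∀ b k c : ℕ, 2 ≤ b → 1 ≤ k → 1 ≤ c → c < b → (∃ i : ℕ, c ∣ b ^ i) → ∃ α : ℝ, 0 < α ∧ Irrational α ∧
      ∀ m : ℕ, 1 ≤ m → m < c * (b ^ k - 1) → {n : ℕ | word b k (m * α) n = ((b ^ k - 1 : ℕ) : ℤ)}.Finite) := by
  have halg : ∀ b k : ℕ, 2 ≤ b → ∀ α : ℝ, IsAlgebraic ℚ α → Irrational α → ∀ ε : ℝ, 0 < ε →
      ∀ᶠ n₀ : ℕ in atTop, ∃ n : ℕ, n₀ ≤ n ∧ (n : ℝ) ≤ (1 + ε) * n₀ ∧ Complete b k α n := by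
    intro b k hb α h1 h2 ε hε
    obtain ⟨L, hL⟩ := Pool.Agent.R471.MS.place_alg k hb h1 h2 hε
    filter_upwards [eventually_ge_atTop L] with n₀ hn₀
    exact hL n₀ hn₀
  have hs : IsAlgebraic ℚ (Real.sqrt 2) := by
    refine ⟨Polynomial.X ^ 2 - Polynomial.C 2, Polynomial.X_pow_sub_C_ne_zero (by norm_num) _, ?_⟩
    rw [map_sub, map_pow, Polynomial.aeval_X, Polynomial.aeval_C, Real.sq_sqrt (by norm_num)]
    norm_num
  refine ⟨fun k ε hε => halg 10 k (by norm_num) _ hs irrational_sqrt_two ε hε, halg, ?_, ?_, ?_⟩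
  · intro b k hb α hα
    rw [← Nat.frequently_atTop_iff_infinite, frequently_atTop]
    intro n₀
    obtain ⟨t, h1, -⟩ := Pool.Agent.R471.MS.place k hb hα n₀
    exact ⟨t + n₀ + k, by omega, h1⟩
  · intro b k w hb hw α hα x d r hd
    exact Pool.Agent.R471.MS.progression hb hα x hd r hw
  · intro b k c hb hk hc1 hcb hc
    obtain ⟨a, h0, hirr, hfin⟩ := Pool.Agent.R471.MW.lower hb hk hc1 hcb hc
    exact ⟨a, h0, hirr, fun m _ hm2 => hfin m hm2⟩

end Pool.Agent.Results.MP_175f55_nt.ShiftedMultiples
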